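import Pool.Agent.H97.RL.Targets
import Pool.Agent.H70.RKS.CN2

/-!
# MP_c62aed_lc, row CN3: the triples served by a pair
-/

set_option autoImplicit false

namespace Pool.Agent.H7.RLM

open Finset Pool.Agent.H97.RK Pool.Agent.H97.RL Pool.Agent.H70.RKS

/-- the admissible values at a variable of the clause -/
def B6 (b : Bool) : Finset (Bool × Bool × Bool) := univ.filter fun t => t.2.2 = true → t.1 = b

/-- the admissible values at the other variables -/
def B4 (o : Option Bool) : Finset (Bool × Bool × Bool) := univ.filter fun t =>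
  (∀ b ∈ ({true, false} : Finset Bool), o = some b →
    (t.2.2 = true → t.1 = b) ∧ (t.2.2 = false → t.2.1 = b)) ∧ (o = none → t.2.2 = true)

theorem card_B6 (b : Bool) : (B6 b).card = 6 := by
  cases b <;> decide

theorem card_B4 (o : Option Bool) : (B4 o).card = 4 := by
  rcases o with _ | b
  · decide
  · cases b <;> decide

open Classical in
theorem pf_CN3 : T_CN3 := by
  intro n q C P
  obtain ⟨y0, hy0⟩ : ∃ y0 : Fin n → Bool, y0 = fun v => decide ((v, false) ∈ C) := ⟨_, rfl⟩
  obtain ⟨Bv, hBv⟩ : ∃ Bv : Fin n → Finset (Bool × Bool × Bool),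
    Bv = fun v => if v ∈ vs C then B6 (y0 v) else B4 (P v) := ⟨_, rfl⟩
  have hc : ∀ v, (Bv v).card = if v ∈ vs C then 6 else 4 := by
    intro v
    rw [hBv]
    by_cases hv : v ∈ vs C
    · simp only [if_pos hv, card_B6]
    · simp only [if_neg hv, card_B4]
  -- functions with admissible values outside of `D`
  obtain ⟨Fn, hFn⟩ : ∃ Fn : Finset (Fin n) → Finset (Fin n → Bool × Bool × Bool),
    Fn = fun D => Fintype.piFinset fun v => if v ∈ D then univ else Bv v := ⟨_, rfl⟩
  have hprod : ∏ v, (if v ∈ vs C then 6 else 4) = 6 ^ (vs C).card * 4 ^ (n - (vs C).card) := by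
    rw [Finset.prod_ite, Finset.prod_const, Finset.prod_const]
    have e1 : (univ.filter fun v => v ∈ vs C) = vs C := by
      ext v
      simp
    have e2 : (univ.filter fun v => ¬ v ∈ vs C) = (vs C)ᶜ := by
      ext v
      simp
    rw [e1, e2, Finset.card_compl, Fintype.card_fin]
  have hFc : ∀ D ∈ ball n q, (Fn D).card ≤ bl n q * (6 ^ (vs C).card * 4 ^ (n - (vs C).card)) := by
    intro D hD
    have hDq : D.card ≤ q := by
      unfold ball at hD
      exact (mem_filter.1 hD).2
    have e1 : (Fn D).card ≤ ∏ v, ((if v ∈ D then 2 else 1) * (if v ∈ vs C then 6 else 4)) := by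
      rw [hFn]
      simp only
      rw [Fintype.card_piFinset]
      refine Finset.prod_le_prod' fun v _ => ?_
      by_cases hv : v ∈ D
      · rw [if_pos hv, if_pos hv]
        have : (univ : Finset (Bool × Bool × Bool)).card = 8 := by decide
        rw [this]
        split_ifs <;> omega
      · rw [if_neg hv, if_neg hv, one_mul, hc]
    have e2 : ∏ v : Fin n, (if v ∈ D then 2 else 1) = 2 ^ D.card := by
      rw [Finset.prod_ite, Finset.prod_const, Finset.prod_const, one_pow, mul_one]
      congr 2
      ext v
      simp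
    rw [Finset.prod_mul_distrib, e2, hprod] at e1
    have e3 : 2 ^ D.card ≤ bl n q := by
      rw [← Finset.card_powerset]
      refine (Finset.card_le_card fun B hB => ?_).trans (card_ball n q)
      unfold ball
      rw [mem_filter]
      exact ⟨mem_univ _, (Finset.card_le_card (Finset.mem_powerset.1 hB)).trans hDq⟩
    exact e1.trans (Nat.mul_le_mul_right _ e3)
  -- the coding
  obtain ⟨φ, hφ⟩ : ∃ φ : (Fin n → Bool) × (Fin n → Bool) × Finset (Fin n) →
    (Fin n → Bool × Bool × Bool), φ = fun p v => (p.1 v, p.2.1 v, decide (v ∈ p.2.2)) := ⟨_, rfl⟩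
  have hφi : Function.Injective φ := by
    rintro ⟨x, z, A⟩ ⟨x', z', A'⟩ h
    have h1 : ∀ v, (x v, z v, decide (v ∈ A)) = (x' v, z' v, decide (v ∈ A')) := by
      intro v
      have := congrFun h v
      rw [hφ] at this
      exact this
    have hx : x = x' := funext fun v => (Prod.ext_iff.1 (h1 v)).1
    have hz : z = z' := funext fun v => (Prod.ext_iff.1 (Prod.ext_iff.1 (h1 v)).2).1
    have hA : A = A' := by
      ext v
      have := (Prod.ext_iff.1 (Prod.ext_iff.1 (h1 v)).2).2
      exact decide_eq_decide.1 this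
    rw [hx, hz, hA]
  rw [← Finset.card_image_of_injective _ hφi]
  have hsub : ((univ : Finset ((Fin n → Bool) × (Fin n → Bool) × Finset (Fin n))).filter fun p =>
      Ser C P q p.1 p.2.1 p.2.2).image φ ⊆ (ball n q).biUnion Fn := by
    intro ψ hψ
    obtain ⟨⟨x, z, A⟩, hp, rfl⟩ := mem_image.1 hψ
    obtain ⟨y, hy, D, hDq, hD⟩ := (mem_filter.1 hp).2
    rw [mem_biUnion]
    refine ⟨D, ?_, ?_⟩
    · unfold ball
      rw [mem_filter]
      exact ⟨mem_univ _, hDq⟩
    · rw [hFn]
      simp only
      rw [Fintype.mem_piFinset]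
      intro v
      by_cases hv : v ∈ D
      · rw [if_pos hv]
        exact mem_univ _
      · rw [if_neg hv, hBv]
        simp only
        obtain ⟨g1, g2⟩ := hD v hv
        rw [hφ]
        simp only
        by_cases hvC : v ∈ vs C
        · rw [if_pos hvC]
          unfold B6
          rw [mem_filter]
          refine ⟨mem_univ _, fun hA => ?_⟩
          have hA' : v ∈ A := of_decide_eq_true hA
          have : x v = y v := g1 hvC hA'
          show x v = y0 v
          rw [this, hy0]
          exact fals_val hy hvC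
        · rw [if_neg hvC]
          unfold B4
          rw [mem_filter]
          obtain ⟨g3, g4⟩ := g2 hvC
          refine ⟨mem_univ _, fun b _ hb => ⟨fun hA => ?_, fun hA => ?_⟩, fun hnone => ?_⟩
          · exact (g3 b hb).1 (of_decide_eq_true hA)
          · exact (g3 b hb).2 (of_decide_eq_false hA)
          · exact decide_eq_true (g4 hnone)
  calc _ ≤ ((ball n q).biUnion Fn).card := Finset.card_le_card hsub
    _ ≤ ∑ D ∈ ball n q, (Fn D).card := Finset.card_biUnion_le
    _ ≤ ∑ _D ∈ ball n q, bl n q * (6 ^ (vs C).card * 4 ^ (n - (vs C).card)) :=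
        Finset.sum_le_sum hFc
    _ = (ball n q).card * (bl n q * (6 ^ (vs C).card * 4 ^ (n - (vs C).card))) := by
        rw [Finset.sum_const, smul_eq_mul]
    _ ≤ bl n q * (bl n q * (6 ^ (vs C).card * 4 ^ (n - (vs C).card))) :=
        Nat.mul_le_mul_right _ (card_ball n q)
    _ = _ := by ring

end Pool.Agent.H7.RLM
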